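import Pool.Agent.Helper74.BS.St

set_option autoImplicit false

/-! Project BS, module LG: the language and the forests of runs. -/

namespace Pool.Agent.Helper8.BS

open Pool.Agent.Helper73.DC Pool.Agent.Helper74.BS

section
variable {C G : Type}

/-- A run of exactly `n` moves of a pushdown system. -/
def R (mv : C → G → C → List G → Prop) : ℕ → C × List G → C × List G → Prop
  | 0, x, y => x = y
  | n + 1, x, y => ∃ (Z : G) (s : List G) (c' : C) (γ : List G), x.2 = Z :: s ∧ mv x.1 Z c' γ ∧ R mv n (c', γ ++ s) y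

lemma R_comp (mv : C → G → C → List G → Prop) : ∀ (m n : ℕ) (x y z : C × List G), R mv m x y → R mv n y z →
    R mv (n + m) x z := by
  intro m
  induction m with
  | zero =>
    intro n x y z h1 h2
    have h1' : x = y := h1
    rw [h1']
    exact h2
  | succ m ih =>
    intro n x y z h1 h2
    obtain ⟨Z, s, c', γ, hx, hm, hr⟩ := h1
    exact ⟨Z, s, c', γ, hx, hm, ih n _ _ _ hr h2⟩

lemma R_split (mv : C → G → C → List G → Prop) : ∀ (l : ℕ) (c : C) (δ τ : List G) (c' : C) (s' : List G),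
    R mv l (c, δ ++ τ) (c', s') →
    (∃ s'', s' = s'' ++ τ ∧ R mv l (c, δ) (c', s'')) ∨
    ∃ l1 c1, l1 ≤ l ∧ R mv l1 (c, δ) (c1, []) ∧ R mv (l - l1) (c1, τ) (c', s') := by
  intro l
  induction l with
  | zero =>
    intro c δ τ c' s' h
    left
    have h' : (c, δ ++ τ) = (c', s') := h
    have h1 : c = c' := congrArg Prod.fst h'
    have h2 : δ ++ τ = s' := congrArg Prod.snd h'
    refine ⟨δ, h2.symm, ?_⟩
    show (c, δ) = (c', δ)
    rw [h1]
  | succ l ih =>
    intro c δ τ c' s' h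
    cases δ with
    | nil =>
      right
      exact ⟨0, c, Nat.zero_le _, rfl, h⟩
    | cons Z δ' =>
      obtain ⟨Z', s, c1, γ, hx, hm, hr⟩ := h
      have hx' : Z :: (δ' ++ τ) = Z' :: s := hx
      rw [List.cons.injEq] at hx'
      obtain ⟨hZ, hs⟩ := hx'
      have hm' : mv c Z c1 γ := by rw [hZ]; exact hm
      rw [← hs, ← List.append_assoc] at hr
      rcases ih c1 (γ ++ δ') τ c' s' hr with ⟨s'', h1, h2⟩ | ⟨l1, c2, hl1, h1, h2⟩
      · left
        exact ⟨s'', h1, Z, δ', c1, γ, rfl, hm', h2⟩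
      · right
        refine ⟨l1 + 1, c2, by omega, ⟨Z, δ', c1, γ, rfl, hm', h1⟩, ?_⟩
        rw [Nat.add_sub_add_right]
        exact h2

lemma pops_R (mv : C → G → C → List G → Prop) {c : C} {β : List G} {c' : C} {f : Fo} (h : Pops mv c β c' f) :
    ∀ s : List G, ∃ n, R mv n (c, β ++ s) (c', s) := by
  induction h with
  | nil c => intro s; exact ⟨0, rfl⟩
  | cons c c1 c2 c3 Z γ β f g hm _ _ ih1 ih2 =>
    intro s
    obtain ⟨n1, h1⟩ := ih1 (β ++ s)
    obtain ⟨n2, h2⟩ := ih2 s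
    refine ⟨n2 + n1 + 1, Z, β ++ s, c1, γ, rfl, hm, ?_⟩
    exact R_comp mv n1 n2 _ _ _ h1 h2

lemma accs_R (mv : C → G → C → List G → Prop) (F : C → Prop) {c : C} {β : List G} {f : Fo} (h : Accs mv F c β f) :
    ∀ s : List G, ∃ n c' s', F c' ∧ R mv n (c, β ++ s) (c', s') := by
  induction h with
  | fin c β hF => intro s; exact ⟨0, c, β ++ s, hF, rfl⟩
  | down c c1 Z γ β f hm _ ih =>
    intro s
    obtain ⟨n, c', s', hF, h1⟩ := ih (β ++ s)
    exact ⟨n + 1, c', s', hF, Z, β ++ s, c1, γ, rfl, hm, h1⟩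
  | next c c1 c2 Z γ β f g hm hp _ ih =>
    intro s
    obtain ⟨n1, h1⟩ := pops_R mv hp (β ++ s)
    obtain ⟨n, c', s', hF, h2⟩ := ih s
    exact ⟨n + n1 + 1, c', s', hF, Z, β ++ s, c1, γ, rfl, hm, R_comp mv n1 n _ _ _ h1 h2⟩

lemma R_pops (mv : C → G → C → List G → Prop) : ∀ (l : ℕ) (c : C) (β : List G) (c' : C),
    R mv l (c, β) (c', []) → ∃ f, Pops mv c β c' f := by
  intro l
  induction l using Nat.strong_induction_on with
  | _ l ih =>
    intro c β c' h
    cases l with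
    | zero =>
      have h' : (c, β) = (c', []) := h
      have h1 : c = c' := congrArg Prod.fst h'
      have h2 : β = [] := congrArg Prod.snd h'
      rw [h1, h2]
      exact ⟨Fo.nil, Pops.nil c'⟩
    | succ l =>
      obtain ⟨Z, s, c1, γ, hx, hm, hr⟩ := h
      have hx' : β = Z :: s := hx
      have hm' : mv c Z c1 γ := hm
      rcases R_split mv l c1 γ s c' [] hr with ⟨s'', h1, h2⟩ | ⟨l1, c2, hl1, h1, h2⟩
      · have h1' : s'' ++ s = [] := h1.symm
        rw [List.append_eq_nil_iff] at h1'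
        obtain ⟨hs1, hs2⟩ := h1'
        rw [hs1] at h2
        obtain ⟨f, hf⟩ := ih l (by omega) c1 γ c' h2
        refine ⟨Fo.nd f Fo.nil, ?_⟩
        rw [hx', hs2]
        exact Pops.cons c c1 c' c' Z γ [] f Fo.nil hm' hf (Pops.nil c')
      · obtain ⟨f, hf⟩ := ih l1 (by omega) c1 γ c2 h1
        obtain ⟨g, hg⟩ := ih (l - l1) (by omega) c2 s c' h2
        refine ⟨Fo.nd f g, ?_⟩
        rw [hx']
        exact Pops.cons c c1 c2 c' Z γ s f g hm' hf hg

lemma R_accs (mv : C → G → C → List G → Prop) (F : C → Prop) : ∀ (l : ℕ) (c : C) (β : List G) (c' : C) (s' : List G),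
    F c' → R mv l (c, β) (c', s') → ∃ f, Accs mv F c β f := by
  intro l
  induction l using Nat.strong_induction_on with
  | _ l ih =>
    intro c β c' s' hF h
    cases l with
    | zero =>
      have h' : (c, β) = (c', s') := h
      have h1 : c = c' := congrArg Prod.fst h'
      exact ⟨Fo.nil, Accs.fin c β (by rw [h1]; exact hF)⟩
    | succ l =>
      obtain ⟨Z, s, c1, γ, hx, hm, hr⟩ := h
      have hx' : β = Z :: s := hx
      have hm' : mv c Z c1 γ := hm
      rcases R_split mv l c1 γ s c' s' hr with ⟨s'', h1, h2⟩ | ⟨l1, c2, hl1, h1, h2⟩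
      · obtain ⟨f, hf⟩ := ih l (by omega) c1 γ c' s'' hF h2
        refine ⟨Fo.nd f Fo.nil, ?_⟩
        rw [hx']
        exact Accs.down c c1 Z γ s f hm' hf
      · obtain ⟨f, hf⟩ := R_pops mv l1 c1 γ c2 h1
        obtain ⟨g, hg⟩ := ih (l - l1) (by omega) c2 s c' s' hF h2
        refine ⟨Fo.nd f g, ?_⟩
        rw [hx']
        exact Accs.next c c1 c2 Z γ s f g hm' hf hg

lemma accs_iff (mv : C → G → C → List G → Prop) (F : C → Prop) (c : C) (β : List G) :
    (∃ f, Accs mv F c β f) ↔ ∃ n c' s', F c' ∧ R mv n (c, β) (c', s') := by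
  constructor
  · rintro ⟨f, hf⟩
    obtain ⟨n, c', s', hF, h⟩ := accs_R mv F hf []
    rw [List.append_nil] at h
    exact ⟨n, c', s', hF, h⟩
  · rintro ⟨n, c', s', hF, h⟩
    exact R_accs mv F n c β c' s' hF h

end

lemma run_iff {α : Type} (M : MPDA α) (w : List α) : ∀ (l : ℕ) (q : M.Q) (p : Fin M.k → ℕ) (s : List M.Γ)
    (q' : M.Q) (p' : Fin M.k → ℕ) (s' : List M.Γ),
    M.Run w l (q, p, s) (q', p', s') ↔ R (mmv M w) l ((q, p), s) ((q', p'), s') := by
  intro l
  induction l with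
  | zero =>
    intro q p s q' p' s'
    show (q, p, s) = (q', p', s') ↔ ((q, p), s) = ((q', p'), s')
    simp only [Prod.mk.injEq]
    tauto
  | succ l ih =>
    intro q p s q' p' s'
    constructor
    · rintro ⟨c1, hst, hr⟩
      cases hst with
      | mk _ q1 _ d Z s1 γ htr =>
        refine ⟨Z, s1, (q1, nps w d p), γ, rfl, ⟨d, htr, rfl⟩, ?_⟩
        exact (ih _ _ _ _ _ _).1 hr
    · rintro ⟨Z, s1, c1, γ, hx, hm, hr⟩
      obtain ⟨q1, p1⟩ := c1
      obtain ⟨d, htr, hp⟩ := hm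
      have hx' : s = Z :: s1 := hx
      have hp' : p1 = nps w d p := hp
      subst hx'
      subst hp'
      exact ⟨(q1, nps w d p, γ ++ s1), MPDA.Step.mk q q1 p d Z s1 γ htr, (ih _ _ _ _ _ _).2 hr⟩

lemma dstep_R {α : Type} (M : DPDA α) {x y : M.Q × List α × List M.Γ} (h : M.Step x y) :
    R (dmv M) 1 ((x.1, x.2.1), x.2.2) ((y.1, y.2.1), y.2.2) := by
  cases h with
  | rd q q' a u Z s γ htr =>
    exact ⟨Z, s, (q', u), γ, rfl, Or.inl ⟨a, rfl, htr⟩, rfl⟩
  | ep q q' u Z s γ htr =>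
    exact ⟨Z, s, (q', u), γ, rfl, Or.inr ⟨rfl, htr⟩, rfl⟩

lemma dR_steps {α : Type} (M : DPDA α) : ∀ (l : ℕ) (q : M.Q) (u : List α) (s : List M.Γ)
    (q' : M.Q) (u' : List α) (s' : List M.Γ), R (dmv M) l ((q, u), s) ((q', u'), s') →
    Relation.ReflTransGen M.Step (q, u, s) (q', u', s') := by
  intro l
  induction l with
  | zero =>
    intro q u s q' u' s' h
    have h' : ((q, u), s) = ((q', u'), s') := h
    simp only [Prod.mk.injEq] at h'
    obtain ⟨⟨h1, h2⟩, h3⟩ := h'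
    rw [h1, h2, h3]
  | succ l ih =>
    intro q u s q' u' s' h
    obtain ⟨Z, s1, c1, γ, hx, hm, hr⟩ := h
    obtain ⟨q1, u1⟩ := c1
    have hx' : s = Z :: s1 := hx
    subst hx'
    have hst : M.Step (q, u, Z :: s1) (q1, u1, γ ++ s1) := by
      rcases hm with ⟨a, hu, htr⟩ | ⟨hu, htr⟩
      · have hu' : u = a :: u1 := hu
        subst hu'
        exact DPDA.Step.rd q q1 a u1 Z s1 γ htr
      · have hu' : u = u1 := hu
        subst hu'
        exact DPDA.Step.ep q q1 u Z s1 γ htr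
    exact Relation.ReflTransGen.head hst (ih _ _ _ _ _ _ hr)

lemma dsteps_R {α : Type} (M : DPDA α) {x y : M.Q × List α × List M.Γ} (h : Relation.ReflTransGen M.Step x y) :
    ∃ n, R (dmv M) n ((x.1, x.2.1), x.2.2) ((y.1, y.2.1), y.2.2) := by
  induction h with
  | refl => exact ⟨0, rfl⟩
  | tail _ hst ih =>
    obtain ⟨n, hn⟩ := ih
    exact ⟨1 + n, R_comp (dmv M) n 1 _ _ _ hn (dstep_R M hst)⟩

theorem hLG : Pool.Agent.Helper74.BS.StLG := by
  refine ⟨?_, ?_⟩
  · intro α M w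
    rw [show (∃ f, DTree M w f) ↔ _ from accs_iff (dmv M) (fun c => M.acc c.1 ∧ c.2 = []) (M.q0, w) [M.z0]]
    constructor
    · rintro ⟨q, s, hq, hr⟩
      obtain ⟨n, hn⟩ := dsteps_R M hr
      exact ⟨n, (q, []), s, ⟨hq, rfl⟩, hn⟩
    · rintro ⟨n, c', s', ⟨hq, hu⟩, hr⟩
      obtain ⟨q, u⟩ := c'
      have hu' : u = [] := hu
      subst hu'
      exact ⟨q, s', hq, dR_steps M n _ _ _ _ _ _ hr⟩
  · intro α M w
    rw [show (∃ f, MTree M w f) ↔ _ from accs_iff (mmv M w) (fun c => M.acc c.1) (M.q0, fun _ => 0) [M.z0]]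
    constructor
    · rintro ⟨t, l, _, q, p, s, hq, hr⟩
      exact ⟨l, (q, p), s, hq, (run_iff M w l _ _ _ _ _ _).1 hr⟩
    · rintro ⟨n, c', s', hq, hr⟩
      obtain ⟨q, p⟩ := c'
      exact ⟨n, n, le_rfl, q, p, s', hq, (run_iff M w n _ _ _ _ _ _).2 hr⟩

end Pool.Agent.Helper8.BS
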